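import Mathlib

/-!
# Divisible ordered abelian groups: definable sets have suprema
-/

set_option autoImplicit false
set_option linter.unusedVariables false
set_option linter.unusedSectionVars false

open FirstOrder

universe u

namespace Pool.Agent.V11251.DW

/-- Function symbols `0, -, +`. -/
inductive GFun : ℕ → Type
  | zero : GFun 0
  | neg : GFun 1
  | add : GFun 2

/-- The relation symbol `<`. -/
inductive GRel : ℕ → Type
  | lt : GRel 2

/-- The language of ordered groups. -/
def Log : FirstOrder.Language.{0, 0} := ⟨GFun, GRel⟩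

/-- An ordered abelian group as a structure in the language of ordered groups. -/
instance oagStr (G : Type u) [AddCommGroup G] [LinearOrder G] : Log.Structure G where
  funMap := fun f v => match f, v with
    | GFun.zero, _ => 0
    | GFun.neg, v => - v 0
    | GFun.add, v => v 0 + v 1
  RelMap := fun R v => match R, v with
    | GRel.lt, v => v 0 < v 1

section forms

variable {G : Type u} [AddCommGroup G]

/-- affine forms -/
abbrev Form (G : Type u) (ι : Type) : Type u := (ι → ℤ) × G

/-- evaluation -/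
def ev {ι : Type} [Fintype ι] (f : Form G ι) (v : ι → G) : G := ∑ i, f.1 i • v i + f.2

variable {ι κ : Type} [Fintype ι] [Fintype κ]

theorem ev_add (f g : Form G ι) (v : ι → G) : ev (f.1 + g.1, f.2 + g.2) v = ev f v + ev g v := by
  unfold ev
  simp only [Pi.add_apply, add_smul, Finset.sum_add_distrib]
  abel

theorem ev_zsmul (n : ℤ) (f : Form G ι) (v : ι → G) : ev (n • f.1, n • f.2) v = n • ev f v := by
  unfold ev
  simp only [Pi.smul_apply, smul_eq_mul, smul_add, Finset.smul_sum, mul_smul]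

theorem ev_neg (f : Form G ι) (v : ι → G) : ev (-f.1, -f.2) v = - ev f v := by
  unfold ev
  simp only [Pi.neg_apply, neg_smul, Finset.sum_neg_distrib]
  abel

theorem ev_const (c : G) (v : ι → G) : ev ((0, c) : Form G ι) v = c := by
  simp [ev]

theorem ev_var [DecidableEq ι] (i : ι) (v : ι → G) :
    ev ((Pi.single i 1, 0) : Form G ι) v = v i := by
  unfold ev
  simp only [add_zero]
  rw [Finset.sum_eq_single i]
  · simp
  · intro j _ hj
    simp [Pi.single_eq_of_ne hj]
  · intro h
    exact absurd (Finset.mem_univ i) h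

/-- weakening -/
def wk (f : Form G ι) : Form G (Option ι) := (fun o => o.elim 0 f.1, f.2)

theorem ev_wk (f : Form G ι) (y : G) (v : ι → G) :
    ev (wk f) (fun o => o.elim y v) = ev f v := by
  unfold ev wk
  rw [Fintype.sum_option]
  simp

/-- the part of a form not involving the last variable -/
def rest (f : Form G (Option ι)) : Form G ι := (fun i => f.1 (some i), f.2)

theorem ev_rest (f : Form G (Option ι)) (y : G) (v : ι → G) :
    ev f (fun o => o.elim y v) = f.1 none • y + ev (rest f) v := by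
  unfold ev rest
  rw [Fintype.sum_option]
  simp only [Option.elim]
  abel

end forms

section sd

variable {G : Type u} [AddCommGroup G] [LinearOrder G] [IsOrderedAddMonoid G]
variable {ι : Type} [Fintype ι]

/-- two elements have the same sign -/
def SS (a b : G) : Prop := (a < 0 ↔ b < 0) ∧ (0 < a ↔ 0 < b)

theorem SS.symm {a b : G} (h : SS a b) : SS b a := ⟨h.1.symm, h.2.symm⟩

theorem SS.eq_zero {a b : G} (h : SS a b) : a = 0 ↔ b = 0 := by
  constructor
  · rintro rfl
    rcases lt_trichotomy b 0 with hb | hb | hb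
    · exact absurd (h.1.2 hb) (lt_irrefl _)
    · exact hb
    · exact absurd (h.2.2 hb) (lt_irrefl _)
  · rintro rfl
    rcases lt_trichotomy a 0 with ha | ha | ha
    · exact absurd (h.1.1 ha) (lt_irrefl _)
    · exact ha
    · exact absurd (h.2.1 ha) (lt_irrefl _)

/-- sign determined predicates -/
def SD (P : (ι → G) → Prop) : Prop :=
  ∃ Fs : Set (Form G ι), Fs.Finite ∧ ∀ v v', (∀ f ∈ Fs, SS (ev f v) (ev f v')) → (P v ↔ P v')

theorem SD.congr {P Q : (ι → G) → Prop} (h : SD P) (hPQ : ∀ v, P v ↔ Q v) : SD Q := by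
  obtain ⟨Fs, hfin, hF⟩ := h
  exact ⟨Fs, hfin, fun v v' hv => by rw [← hPQ, ← hPQ]; exact hF v v' hv⟩

theorem SD.false : SD (fun _ : ι → G => False) := ⟨∅, Set.finite_empty, fun _ _ _ => Iff.rfl⟩

theorem SD.imp {P Q : (ι → G) → Prop} (hP : SD P) (hQ : SD Q) : SD (fun v => P v → Q v) := by
  obtain ⟨Fs, hfin, hF⟩ := hP
  obtain ⟨Fs', hfin', hF'⟩ := hQ
  exact ⟨Fs ∪ Fs', hfin.union hfin', fun v v' hv => imp_congr
    (hF v v' fun f hf => hv f (Or.inl hf)) (hF' v v' fun f hf => hv f (Or.inr hf))⟩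

theorem SD.not {P : (ι → G) → Prop} (hP : SD P) : SD (fun v => ¬ P v) := hP.imp SD.false

theorem SD.pos (f : Form G ι) : SD (fun v => 0 < ev f v) :=
  ⟨{f}, Set.finite_singleton f, fun v v' hv => (hv f rfl).2⟩

theorem SD.eqz (f : Form G ι) : SD (fun v => ev f v = 0) :=
  ⟨{f}, Set.finite_singleton f, fun v v' hv => (hv f rfl).eq_zero⟩

theorem zsmul_pos_iff' {n : ℤ} (hn : 0 < n) (a : G) : 0 < n • a ↔ 0 < a := by
  constructor
  · intro h
    by_contra hle
    push Not at hle
    exact absurd h (not_lt.2 (smul_nonpos_of_nonneg_of_nonpos hn.le hle))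
  · intro h
    exact smul_pos hn h

theorem zsmul_neg_iff' {n : ℤ} (hn : 0 < n) (a : G) : n • a < 0 ↔ a < 0 := by
  have := zsmul_pos_iff' hn (-a)
  rw [smul_neg] at this
  simpa using this

theorem ss_zsmul {n : ℤ} (hn : n ≠ 0) {a b : G} : SS (n • a) (n • b) ↔ SS a b := by
  rcases lt_or_gt_of_ne hn with h | h
  · have h' : 0 < -n := by omega
    have e1 := zsmul_pos_iff' h' a
    have e2 := zsmul_neg_iff' h' a
    have e3 := zsmul_pos_iff' h' b
    have e4 := zsmul_neg_iff' h' b
    rw [neg_smul] at e1 e2 e3 e4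
    rw [neg_pos] at e1 e3
    rw [neg_neg_iff_pos] at e2 e4
    unfold SS
    rw [e1, e2, e3, e4]
    exact and_comm
  · unfold SS
    rw [zsmul_pos_iff' h, zsmul_pos_iff' h, zsmul_neg_iff' h, zsmul_neg_iff' h]

/-- matching positions -/
theorem exists_match [Nontrivial G] [DenselyOrdered G] {S : Type*} [Finite S] (r r' : S → G)
    (hr : ∀ f g, r f < r g ↔ r' f < r' g) (y : G) :
    ∃ y', ∀ f, (y < r f ↔ y' < r' f) ∧ (r f < y ↔ r' f < y') := by
  classical
  have := Fintype.ofFinite S
  have heq : ∀ f g, r f = r g → r' f = r' g := by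
    intro f g h
    rcases lt_trichotomy (r' f) (r' g) with h1 | h1 | h1
    · exact absurd ((hr f g).2 h1) (by rw [h]; exact lt_irrefl _)
    · exact h1
    · exact absurd ((hr g f).2 h1) (by rw [h]; exact lt_irrefl _)
  by_cases hy : ∃ f₀, r f₀ = y
  · obtain ⟨f₀, rfl⟩ := hy
    exact ⟨r' f₀, fun f => ⟨hr f₀ f, hr f f₀⟩⟩
  · push Not at hy
    obtain ⟨m, hm1, hm2⟩ := Order.exists_between_finsets
      ((Finset.univ.filter (fun f => r f < y)).image r')
      ((Finset.univ.filter (fun f => y < r f)).image r') (by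
        intro a ha b hb
        simp only [Finset.mem_image, Finset.mem_filter, Finset.mem_univ, true_and] at ha hb
        obtain ⟨f, hf, rfl⟩ := ha
        obtain ⟨g, hg, rfl⟩ := hb
        exact (hr f g).1 (hf.trans hg))
    have hlo : ∀ f, r f < y → r' f < m := fun f hf => hm1 _ (by
      simp only [Finset.mem_image, Finset.mem_filter, Finset.mem_univ, true_and]
      exact ⟨f, hf, rfl⟩)
    have hhi : ∀ f, y < r f → m < r' f := fun f hf => hm2 _ (by
      simp only [Finset.mem_image, Finset.mem_filter, Finset.mem_univ, true_and]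
      exact ⟨f, hf, rfl⟩)
    refine ⟨m, fun f => ?_⟩
    rcases lt_trichotomy (r f) y with h | h | h
    · exact ⟨⟨fun h' => absurd h' h.not_gt, fun h' => absurd h' (hlo f h).not_gt⟩,
        ⟨fun _ => hlo f h, fun _ => h⟩⟩
    · exact absurd h (hy f)
    · exact ⟨⟨fun _ => hhi f h, fun _ => h⟩,
        ⟨fun h' => absurd h' h.not_gt, fun h' => absurd h' (hhi f h).not_gt⟩⟩

variable (hdiv : ∀ n : ℤ, n ≠ 0 → ∀ g : G, ∃ h : G, n • h = g)

include hdiv in
theorem denselyOrdered_of_div : DenselyOrdered G := by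
  refine ⟨fun a b hab => ?_⟩
  obtain ⟨c, hc⟩ := hdiv 2 (by norm_num) (a + b)
  refine ⟨c, ?_, ?_⟩
  · have : 0 < (2 : ℤ) • (c - a) := by
      rw [smul_sub, hc, two_smul]
      have : a + b - (a + a) = b - a := by abel
      rw [this]
      exact sub_pos.2 hab
    exact sub_pos.1 ((zsmul_pos_iff' (by norm_num) _).1 this)
  · have : 0 < (2 : ℤ) • (b - c) := by
      rw [smul_sub, hc, two_smul]
      have : b + b - (a + b) = b - a := by abel
      rw [this]
      exact sub_pos.2 hab
    exact sub_pos.1 ((zsmul_pos_iff' (by norm_num) _).1 this)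

include hdiv in
theorem SD.ex [Nontrivial G] {P : (ι → G) → G → Prop}
    (h : SD (fun w : Option ι → G => P (fun i => w (some i)) (w none))) :
    SD (fun v => ∃ y, P v y) := by
  classical
  haveI := denselyOrdered_of_div hdiv
  obtain ⟨Fs, hfin, hF⟩ := h
  let cr : Form G (Option ι) → Form G (Option ι) → Form G ι := fun f g =>
    ((g.1 none) • (rest f).1 + (-(f.1 none)) • (rest g).1,
      (g.1 none) • (rest f).2 + (-(f.1 none)) • (rest g).2)
  have hcr : ∀ f g v, ev (cr f g) v = g.1 none • ev (rest f) v - f.1 none • ev (rest g) v := by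
    intro f g v
    have h1 := ev_add ((g.1 none) • (rest f).1, (g.1 none) • (rest f).2)
      ((-(f.1 none)) • (rest g).1, (-(f.1 none)) • (rest g).2) v
    rw [ev_zsmul, ev_zsmul] at h1
    rw [sub_eq_add_neg, ← neg_smul]
    exact h1
  refine ⟨rest '' Fs ∪ (fun p : Form G (Option ι) × Form G (Option ι) => cr p.1 p.2) '' (Fs ×ˢ Fs),
    (hfin.image _).union ((hfin.prod hfin).image _), ?_⟩
  have key : ∀ v v', (∀ f ∈ rest '' Fs ∪
      (fun p : Form G (Option ι) × Form G (Option ι) => cr p.1 p.2) '' (Fs ×ˢ Fs),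
      SS (ev f v) (ev f v')) → (∃ y, P v y) → ∃ y, P v' y := by
    intro v v' hv ⟨y, hy⟩
    let S := {f : Form G (Option ι) // f ∈ Fs ∧ f.1 none ≠ 0}
    haveI : Finite S := (hfin.subset (fun f hf => hf.1 : {f | f ∈ Fs ∧ f.1 none ≠ 0} ⊆ Fs)).to_subtype
    have hroot : ∀ (w : ι → G) (f : S), ∃ r, (f.1.1 none) • r = - ev (rest f.1) w :=
      fun w f => hdiv _ f.2.2 _
    choose r hr using hroot v
    choose r' hr' using hroot v'
    have hord : ∀ f g : S, r f < r g ↔ r' f < r' g := by
      intro f g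
      have hnn : f.1.1 none * g.1.1 none ≠ 0 := mul_ne_zero f.2.2 g.2.2
      have e1 : (f.1.1 none * g.1.1 none) • (r f - r g) = - ev (cr f.1 g.1) v := by
        rw [hcr, smul_sub, mul_comm, mul_smul, hr, mul_comm, mul_smul, hr, smul_neg, smul_neg]
        abel
      have e2 : (f.1.1 none * g.1.1 none) • (r' f - r' g) = - ev (cr f.1 g.1) v' := by
        rw [hcr, smul_sub, mul_comm, mul_smul, hr', mul_comm, mul_smul, hr', smul_neg, smul_neg]
        abel
      have h3 : SS (ev (cr f.1 g.1) v) (ev (cr f.1 g.1) v') :=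
        hv _ (Or.inr ⟨(f.1, g.1), ⟨f.2.1, g.2.1⟩, rfl⟩)
      have h4 : SS (- ev (cr f.1 g.1) v) (- ev (cr f.1 g.1) v') := by
        unfold SS at h3 ⊢
        simp only [Left.neg_neg_iff, Left.neg_pos_iff]
        exact ⟨h3.2, h3.1⟩
      rw [← e1, ← e2, ss_zsmul hnn] at h4
      have h5 := h4.1
      rw [sub_neg, sub_neg] at h5
      exact h5
    obtain ⟨y', hy'⟩ := exists_match r r' hord y
    refine ⟨y', ?_⟩
    have := (hF (fun o => o.elim y v) (fun o => o.elim y' v') ?_).1 hy
    · exact this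
    · intro f hf
      rw [ev_rest, ev_rest]
      by_cases hn : f.1 none = 0
      · rw [hn, zero_smul, zero_smul, zero_add, zero_add]
        exact hv _ (Or.inl ⟨f, hf, rfl⟩)
      · let f' : S := ⟨f, hf, hn⟩
        have e1 : f.1 none • y + ev (rest f) v = f.1 none • (y - r f') := by
          rw [smul_sub, hr f']
          abel
        have e2 : f.1 none • y' + ev (rest f) v' = f.1 none • (y' - r' f') := by
          rw [smul_sub, hr' f']
          abel
        rw [e1, e2, ss_zsmul hn]
        unfold SS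
        rw [sub_neg, sub_neg, sub_pos, sub_pos]
        exact hy' f'
  exact fun v v' hv => ⟨key v v' hv, key v' v fun f hf => (hv f hf).symm⟩

include hdiv in
theorem SD.all [Nontrivial G] {P : (ι → G) → G → Prop}
    (h : SD (fun w : Option ι → G => P (fun i => w (some i)) (w none))) :
    SD (fun v => ∀ y, P v y) := by
  have := (SD.ex hdiv (P := fun v y => ¬ P v y) h.not).not
  exact this.congr fun v => by push Not; rfl

/-! ### formulas -/

theorem term_form {β : Type*} {m : ℕ} (t : Log.Term (β ⊕ Fin m)) (p : β → Form G ι)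
    (q : Fin m → Form G ι) : ∃ f : Form G ι, ∀ v : ι → G,
      t.realize (Sum.elim (fun b => ev (p b) v) (fun i => ev (q i) v)) = ev f v := by
  induction t with
  | var x =>
    rcases x with b | i
    · exact ⟨p b, fun v => rfl⟩
    · exact ⟨q i, fun v => rfl⟩
  | func f ts ih =>
    cases f with
    | zero => exact ⟨(0, 0), fun v => (ev_const 0 v).symm⟩
    | neg =>
      obtain ⟨g, hg⟩ := ih 0
      refine ⟨(-g.1, -g.2), fun v => ?_⟩
      rw [ev_neg, ← hg v]
      rfl
    | add =>
      obtain ⟨g, hg⟩ := ih 0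
      obtain ⟨g', hg'⟩ := ih 1
      refine ⟨(g.1 + g'.1, g.2 + g'.2), fun v => ?_⟩
      rw [ev_add, ← hg v, ← hg' v]
      rfl

include hdiv in
theorem formula_sd [Nontrivial G] {β : Type*} {m : ℕ} (ψ : Log.BoundedFormula β m) :
    ∀ (ι : Type) [Fintype ι] (p : β → Form G ι) (q : Fin m → Form G ι),
      SD (fun v : ι → G => ψ.Realize (fun b => ev (p b) v) (fun i => ev (q i) v)) := by
  induction ψ with
  | falsum => intro ι _ p q; exact SD.false
  | equal t₁ t₂ =>
    intro ι _ p q
    obtain ⟨f₁, h₁⟩ := term_form t₁ p q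
    obtain ⟨f₂, h₂⟩ := term_form t₂ p q
    refine (SD.eqz (f₁.1 + -f₂.1, f₁.2 + -f₂.2)).congr fun v => ?_
    have e := ev_add f₁ (-f₂.1, -f₂.2) v
    rw [ev_neg] at e
    simp only at e
    rw [e, ← h₁ v, ← h₂ v, ← sub_eq_add_neg, sub_eq_zero]
    rfl
  | rel R ts =>
    intro ι _ p q
    cases R with
    | lt =>
      obtain ⟨f₁, h₁⟩ := term_form (ts 0) p q
      obtain ⟨f₂, h₂⟩ := term_form (ts 1) p q
      refine (SD.pos (f₂.1 + -f₁.1, f₂.2 + -f₁.2)).congr fun v => ?_
      have e := ev_add f₂ (-f₁.1, -f₁.2) v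
      rw [ev_neg] at e
      simp only at e
      rw [e, ← h₁ v, ← h₂ v, ← sub_eq_add_neg, sub_pos]
      rfl
  | imp φ ψ h₁ h₂ =>
    intro ι _ p q
    exact (h₁ ι p q).imp (h₂ ι p q)
  | @all n φ h =>
    intro ι _ p q
    classical
    have h1 := h (Option ι) (fun b => wk (p b))
      (Fin.snoc (fun i => wk (q i)) ((Pi.single none 1, 0) : Form G (Option ι)))
    refine SD.all hdiv (P := fun v y => φ.Realize (fun b => ev (p b) v)
      (Fin.snoc (fun i => ev (q i) v) y)) (h1.congr fun w => ?_)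
    have e0 : w = fun o => o.elim (w none) (fun i => w (some i)) := by
      funext o
      rcases o with _ | i <;> rfl
    have e1 : (fun b => ev (wk (p b)) w) = fun b => ev (p b) (fun i => w (some i)) := by
      funext b
      conv_lhs => rw [e0]
      rw [ev_wk]
    have e2 : (fun i => ev ((Fin.snoc (fun i => wk (q i))
        ((Pi.single none 1, 0) : Form G (Option ι)) : Fin (n + 1) → Form G (Option ι)) i) w) =
        (Fin.snoc (fun i => ev (q i) (fun i => w (some i))) (w none) : Fin (n + 1) → G) := by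
      funext i
      refine Fin.lastCases ?_ (fun j => ?_) i
      · rw [Fin.snoc_last, Fin.snoc_last, ev_var]
      · rw [Fin.snoc_castSucc, Fin.snoc_castSucc]
        conv_lhs => rw [e0]
        rw [ev_wk]
    rw [e1, e2]

include hdiv in
theorem definable_sd [Nontrivial G] (S : Set G) (hS : (Set.univ : Set G).Definable₁ Log S) :
    SD (fun v : Fin 1 → G => v 0 ∈ S) := by
  classical
  unfold Set.Definable₁ at hS
  rw [Set.definable_iff_exists_formula_sum] at hS
  obtain ⟨φ, hφ⟩ := hS
  have h1 := formula_sd hdiv (m := 0) φ (Fin 1)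
    (Sum.elim (fun c : (Set.univ : Set G) => ((0, (c : G)) : Form G (Fin 1)))
      (fun i => (Pi.single i 1, 0))) (fun i => i.elim0)
  refine h1.congr fun v => ?_
  have h2 : v ∈ {x : Fin 1 → G | x 0 ∈ S} ↔
      φ.Realize (Sum.elim (fun a : (Set.univ : Set G) => (a : G)) v) := by
    rw [hφ]; rfl
  refine Iff.trans ?_ h2.symm
  unfold Language.Formula.Realize
  have e1 : (fun b => ev ((Sum.elim (fun c : (Set.univ : Set G) => ((0, (c : G)) : Form G (Fin 1)))
      (fun i => (Pi.single i 1, 0))) b) v) = Sum.elim (fun a : (Set.univ : Set G) => (a : G)) v := by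
    funext b
    rcases b with c | i
    · exact ev_const _ _
    · exact ev_var _ _
  rw [e1]
  exact iff_of_eq (congrArg _ (Subsingleton.elim _ _))

/-- definable completeness -/
theorem exists_lub [Nontrivial G] (hdiv : ∀ n : ℤ, n ≠ 0 → ∀ g : G, ∃ h : G, n • h = g)
    (S : Set G) (hS : (Set.univ : Set G).Definable₁ Log S) (hne : S.Nonempty)
    (hbdd : BddAbove S) : ∃ σ, IsLUB S σ := by
  classical
  haveI := denselyOrdered_of_div hdiv
  obtain ⟨Fs, hfin, hF⟩ := definable_sd hdiv S hS
  -- roots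
  have hroot : ∀ f : Form G (Fin 1), ∃ r : G, f.1 0 ≠ 0 → (f.1 0) • r = - f.2 := by
    intro f
    by_cases hn : f.1 0 = 0
    · exact ⟨0, fun h => absurd hn h⟩
    · obtain ⟨r, hr⟩ := hdiv _ hn (-f.2)
      exact ⟨r, fun _ => hr⟩
  choose r hr using hroot
  have hev : ∀ (f : Form G (Fin 1)) (x : G), ev f (fun _ => x) = f.1 0 • x + f.2 := by
    intro f x
    simp [ev]
  have hsame : ∀ x x' : G, (∀ f ∈ Fs, (x < r f ↔ x' < r f) ∧ (r f < x ↔ r f < x')) →
      (x ∈ S ↔ x' ∈ S) := by
    intro x x' h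
    apply hF (fun _ => x) (fun _ => x')
    intro f hf
    rw [hev, hev]
    by_cases hn : f.1 0 = 0
    · rw [hn, zero_smul, zero_smul]
      exact ⟨Iff.rfl, Iff.rfl⟩
    · have e1 : f.1 0 • x + f.2 = f.1 0 • (x - r f) := by
        rw [smul_sub, hr f hn]; abel
      have e2 : f.1 0 • x' + f.2 = f.1 0 • (x' - r f) := by
        rw [smul_sub, hr f hn]; abel
      rw [e1, e2, ss_zsmul hn]
      unfold SS
      rw [sub_neg, sub_neg, sub_pos, sub_pos]
      exact h f hf
  obtain ⟨b, hb⟩ := hbdd
  -- the finite set of candidates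
  let T : Finset G := insert b (hfin.toFinset.image r)
  obtain ⟨t, ht, htmin⟩ := (T.filter (fun t => t ∈ upperBounds S)).exists_min_image id
    ⟨b, Finset.mem_filter.2 ⟨Finset.mem_insert_self _ _, hb⟩⟩
  rw [Finset.mem_filter] at ht
  refine ⟨t, ht.2, ?_⟩
  intro u hu
  by_contra hut
  push Not at hut
  -- an element of `S` in the last gap
  obtain ⟨x, hxS, hgap⟩ : ∃ x ∈ S, ∀ f ∈ Fs, ¬ (x ≤ r f ∧ r f < t) ∨ r f = x ∧ False := by
    by_cases hlow : (T.filter (· < t)).Nonempty
    · obtain ⟨t₁, ht₁, ht₁max⟩ := (T.filter (· < t)).exists_max_image id hlow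
      rw [Finset.mem_filter] at ht₁
      have hnub : t₁ ∉ upperBounds S := by
        intro h
        have := htmin t₁ (Finset.mem_filter.2 ⟨ht₁.1, h⟩)
        exact absurd ht₁.2 (not_lt.2 this)
      rw [mem_upperBounds] at hnub
      push Not at hnub
      obtain ⟨x, hxS, hx⟩ := hnub
      refine ⟨x, hxS, fun f hf => Or.inl ?_⟩
      rintro ⟨h1, h2⟩
      have h3 := ht₁max (r f) (Finset.mem_filter.2 ⟨Finset.mem_insert_of_mem
        (Finset.mem_image.2 ⟨f, hfin.mem_toFinset.2 hf, rfl⟩), h2⟩)
      exact absurd (lt_of_lt_of_le hx h1) (not_lt.2 h3)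
    · obtain ⟨x, hxS⟩ := hne
      refine ⟨x, hxS, fun f hf => Or.inl ?_⟩
      rintro ⟨h1, h2⟩
      exact hlow ⟨r f, Finset.mem_filter.2 ⟨Finset.mem_insert_of_mem
        (Finset.mem_image.2 ⟨f, hfin.mem_toFinset.2 hf, rfl⟩), h2⟩⟩
  have hgap' : ∀ f ∈ Fs, ¬ (x ≤ r f ∧ r f < t) := fun f hf => (hgap f hf).resolve_right (by simp)
  obtain ⟨z, hz1, hz2⟩ := exists_between hut
  have hxu : x ≤ u := hu hxS
  have hzS : z ∈ S := by
    rw [← hsame x z]
    · exact hxS
    intro f hf
    have h1 := hgap' f hf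
    constructor
    · constructor
      · intro h2
        by_contra h3
        push Not at h3
        exact h1 ⟨h2.le, lt_of_le_of_lt h3 hz2⟩
      · intro h2
        exact lt_of_le_of_lt hxu (hz1.trans h2)
    · constructor
      · intro h2
        exact h2.trans_le (hxu.trans hz1.le)
      · intro h2
        by_contra h3
        push Not at h3
        exact h1 ⟨h3, h2.trans hz2⟩
  exact absurd (hu hzS) (not_le.2 hz1)

end sd

end Pool.Agent.V11251.DW
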