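import Pool.Agent.V11251.RC.Hyp

/-!
# Ultrapowers of the reals with long chains of infinite elements
-/

set_option autoImplicit false
set_option linter.unusedVariables false
set_option linter.unusedSectionVars false

universe u

namespace Pool.Agent.V11251.DW

open Polynomial Pool.Agent.V11251.RC

section germ

variable {A : Type u} (U : Ultrafilter A)

/-- the ultrapower -/
abbrev GR : Type u := Filter.Germ (U : Filter A) ℝ

variable {U}

theorem sqrt_GR (x : GR U) (hx : 0 ≤ x) : ∃ y : GR U, 0 ≤ y ∧ x = y * y := by
  induction x using Filter.Germ.inductionOn with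
  | h f =>
    refine ⟨((fun n => Real.sqrt (f n) : A → ℝ) : GR U), ?_, ?_⟩
    · exact Filter.Germ.coe_le.2 (Filter.Eventually.of_forall fun n => Real.sqrt_nonneg _)
    · rw [← Filter.Germ.coe_mul, Filter.Germ.coe_eq]
      have h1 : ∀ᶠ n in (U : Filter A), (0 : ℝ) ≤ f n := Filter.Germ.coe_le.1 hx
      filter_upwards [h1] with n hn
      simp only [Pi.mul_apply]
      rw [Real.mul_self_sqrt hn]

theorem coe_sumG (s : Finset ℕ) (g : ℕ → A → ℝ) :
    (((fun m => ∑ i ∈ s, g i m : A → ℝ)) : GR U) = ∑ i ∈ s, ((g i : A → ℝ) : GR U) := by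
  classical
  induction s using Finset.induction_on with
  | empty => simp; rfl
  | insert a s ha ih =>
    rw [Finset.sum_insert ha, ← ih, ← Filter.Germ.coe_add]
    congr 1
    funext m
    rw [Finset.sum_insert ha]
    rfl

theorem root_GR (f : (GR U)[X]) (hf : Odd f.natDegree) : ∃ x, f.IsRoot x := by
  have hrep : ∀ i, ∃ a : A → ℝ, f.coeff i = (a : GR U) := by
    intro i
    induction h : f.coeff i using Filter.Germ.inductionOn with
    | h a => exact ⟨a, rfl⟩
  choose a ha using hrep
  set n := f.natDegree with hn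
  have hlead : ∀ᶠ m in (U : Filter A), a n m ≠ 0 := by
    have h1 : ((a n : A → ℝ) : GR U) ≠ 0 := by
      rw [← ha n, hn]
      intro h0
      have : f = 0 := leadingCoeff_eq_zero.1 h0
      rw [this] at hn
      simp at hn
      rw [hn] at hf
      simp at hf
    apply Ultrafilter.eventually_not.2
    intro h2
    exact h1 (Filter.Germ.coe_eq.2 h2)
  let p : A → ℝ[X] := fun m => ∑ i ∈ Finset.range (n + 1), C (a i m) * X ^ i
  have hroot : ∀ m, ∃ x, a n m ≠ 0 → (p m).eval x = 0 := by
    intro m
    by_cases hm : a n m ≠ 0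
    · have hc : (p m).coeff n = a n m := by
        simp only [p, finset_sum_coeff, coeff_C_mul_X_pow]
        rw [Finset.sum_eq_single n]
        · simp
        · intro b _ hb
          rw [if_neg (fun h => hb h.symm)]
        · intro hnn
          exact absurd (Finset.mem_range.2 (Nat.lt_succ_self n)) hnn
      have hd : (p m).natDegree = n := by
        apply le_antisymm
        · apply natDegree_sum_le_of_forall_le
          intro i hi
          apply (natDegree_C_mul_X_pow_le _ _).trans
          have := Finset.mem_range.1 hi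
          omega
        · apply le_natDegree_of_ne_zero
          rw [hc]; exact hm
      obtain ⟨x, hx⟩ := real_root_of_odd (p m) (by rw [hd]; exact hf)
      exact ⟨x, fun _ => hx⟩
    · exact ⟨0, fun h => absurd h hm⟩
  choose r hr using hroot
  refine ⟨(r : GR U), ?_⟩
  rw [IsRoot.def, eval_eq_sum_range]
  have h1 : ∀ i, f.coeff i * (r : GR U) ^ i = (((fun m => a i m * r m ^ i : A → ℝ)) : GR U) := by
    intro i
    rw [ha i, ← Filter.Germ.coe_pow, ← Filter.Germ.coe_mul]
    rfl
  simp only [h1]
  rw [← coe_sumG]
  have h0 : (0 : GR U) = ((fun _ => (0 : ℝ) : A → ℝ) : GR U) := rfl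
  rw [h0, Filter.Germ.coe_eq]
  filter_upwards [hlead] with m hm
  have h2 := hr m hm
  simp only [p, eval_finset_sum, eval_mul, eval_C, eval_pow, eval_X] at h2
  exact h2

theorem isRealClosed_GR : IsRealClosed (GR U) :=
  IsRealClosed.of_linearOrderedField
    (fun {x} hx => by obtain ⟨y, _, hy⟩ := sqrt_GR x hx; exact ⟨y, hy⟩)
    (fun {f} hf => root_GR f hf)

end germ

/-- Real closed fields with long chains of infinite elements. -/
theorem exists_chain (J : Type u) [LinearOrder J] [Infinite J] :
    ∃ (R : Type u) (_ : Field R) (_ : LinearOrder R) (_ : IsStrictOrderedRing R),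
      IsRealClosed R ∧ ∃ s : J → R, (∀ j, ∀ n : ℕ, (n : R) < s j) ∧
        ∀ i j, i < j → ∀ n : ℕ, s i ^ n < s j := by
  classical
  let U : Ultrafilter (Finset J) := Ultrafilter.of Filter.atTop
  have hU : (U : Filter (Finset J)) ≤ Filter.atTop := Ultrafilter.of_le _
  have hcard : ∀ n : ℕ, ∀ᶠ F in (U : Filter (Finset J)), n ≤ F.card := by
    intro n
    apply hU
    obtain ⟨F₀, hF₀⟩ := Infinite.exists_subset_card_eq J n
    filter_upwards [Filter.eventually_ge_atTop F₀] with F hF
    rw [← hF₀]
    exact Finset.card_le_card hF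
  have hmem : ∀ j : J, ∀ᶠ F in (U : Filter (Finset J)), j ∈ F := by
    intro j
    apply hU
    filter_upwards [Filter.eventually_ge_atTop {j}] with F hF
    exact hF (Finset.mem_singleton_self j)
  let rk : Finset J → J → ℕ := fun F j => (F.filter (· < j)).card
  let s : J → GR U := fun j => ((fun F => (2 : ℝ) ^ (F.card ^ (rk F j + 1)) : Finset J → ℝ) : GR U)
  refine ⟨GR U, inferInstance, inferInstance, inferInstance, isRealClosed_GR, s, ?_, ?_⟩
  · intro j n
    have hn : (n : GR U) = ((fun _ => (n : ℝ) : Finset J → ℝ) : GR U) := rfl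
    rw [hn]
    apply Filter.Germ.coe_lt.2
    filter_upwards [hcard (n + 1)] with F hF
    have h1 : n < F.card ^ (rk F j + 1) := by
      calc n < F.card := hF
        _ = F.card ^ 1 := (pow_one _).symm
        _ ≤ F.card ^ (rk F j + 1) := Nat.pow_le_pow_right (by omega) (by omega)
    have h2 : n < 2 ^ (F.card ^ (rk F j + 1)) := h1.trans Nat.lt_two_pow_self
    exact_mod_cast h2
  · intro i j hij n
    show ((fun F => (2 : ℝ) ^ (F.card ^ (rk F i + 1)) : Finset J → ℝ) : GR U) ^ n < _
    rw [← Filter.Germ.coe_pow]
    apply Filter.Germ.coe_lt.2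
    filter_upwards [hcard (n + 1), hmem i] with F hF hi
    simp only [Pi.pow_apply]
    rw [← pow_mul]
    apply pow_lt_pow_right₀ (by norm_num)
    have hrk : rk F i + 1 ≤ rk F j := by
      have hsub : insert i (F.filter (· < i)) ⊆ F.filter (· < j) := by
        intro a ha
        rw [Finset.mem_insert, Finset.mem_filter] at ha
        rw [Finset.mem_filter]
        rcases ha with rfl | ⟨h1, h2⟩
        · exact ⟨hi, hij⟩
        · exact ⟨h1, h2.trans hij⟩
      have h3 := Finset.card_le_card hsub
      rw [Finset.card_insert_of_notMem (by simp)] at h3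
      exact h3
    have hpos : 0 < F.card := by omega
    calc F.card ^ (rk F i + 1) * n < F.card ^ (rk F i + 1) * F.card := by
          apply Nat.mul_lt_mul_of_pos_left hF
          positivity
      _ = F.card ^ (rk F i + 1 + 1) := (pow_succ _ _).symm
      _ ≤ F.card ^ (rk F j + 1) := Nat.pow_le_pow_right hpos (by omega)

end Pool.Agent.V11251.DW
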