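import Pool.Agent.V11251.DW.Val

set_option autoImplicit false
set_option linter.unusedVariables false
set_option linter.unusedSectionVars false

universe u

namespace Pool.Agent.V11251.DW

section nat

variable (K : Type u) [Field K] [LinearOrder K] [IsStrictOrderedRing K]

/-- the valuation ring of the natural valuation of an ordered field -/
def natRing : ValuationSubring K where
  carrier := {x | ∃ n : ℕ, |x| ≤ n}
  mul_mem' := by
    rintro a b ⟨n, hn⟩ ⟨m, hm⟩
    exact ⟨n * m, by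
      rw [abs_mul]; push_cast; exact mul_le_mul hn hm (abs_nonneg _) (Nat.cast_nonneg _)⟩
  one_mem' := ⟨1, by simp⟩
  add_mem' := by
    rintro a b ⟨n, hn⟩ ⟨m, hm⟩
    exact ⟨n + m, by push_cast; exact (abs_add_le a b).trans (add_le_add hn hm)⟩
  zero_mem' := ⟨0, by simp⟩
  neg_mem' := by
    rintro a ⟨n, hn⟩
    exact ⟨n, by rwa [abs_neg]⟩
  mem_or_inv_mem' := by
    intro x
    rcases le_total |x| 1 with h | h
    · exact Or.inl ⟨1, by simpa using h⟩
    · refine Or.inr ⟨1, ?_⟩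
      rw [abs_inv]
      simpa using inv_le_one_of_one_le₀ h

theorem mem_natRing (x : K) : x ∈ natRing K ↔ ∃ n : ℕ, |x| ≤ n := Iff.rfl

/-- the natural valuation, as a valuation with values in a multiplicative group with zero -/
noncomputable abbrev nv : Valuation K (natRing K).ValueGroup := (natRing K).valuation

variable {K}

theorem nv_le_iff (x y : K) : nv K x ≤ nv K y ↔ ∃ n : ℕ, |x| ≤ n * |y| := by
  by_cases hy : y = 0
  · subst hy
    rw [map_zero, le_zero_iff, Valuation.zero_iff]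
    constructor
    · rintro rfl; exact ⟨0, by simp⟩
    · rintro ⟨n, hn⟩
      rw [abs_zero, mul_zero] at hn
      exact abs_nonpos_iff.1 hn
  · have hy' : 0 < |y| := abs_pos.2 hy
    have h1 : nv K x ≤ nv K y ↔ nv K (x / y) ≤ 1 := by
      rw [map_div₀, div_le_one₀ (zero_lt_iff.2 ((Valuation.ne_zero_iff _).2 hy))]
    rw [h1, ValuationSubring.valuation_le_one_iff, mem_natRing]
    refine exists_congr fun n => ?_
    rw [abs_div, div_le_iff₀ hy']

theorem nv_lt_iff (x y : K) : nv K x < nv K y ↔ ∀ n : ℕ, n * |x| < |y| := by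
  rw [← not_le, nv_le_iff]
  push Not
  rfl

theorem nv_mono {x y : K} (h : |x| ≤ |y|) : nv K x ≤ nv K y :=
  (nv_le_iff x y).2 ⟨1, by simpa using h⟩

theorem nv_add_same {x y : K} (h : 0 ≤ x * y) : nv K (x + y) = max (nv K x) (nv K y) := by
  have habs : |x + y| = |x| + |y| := by
    rw [abs_add_eq_add_abs_iff]
    rcases mul_nonneg_iff.1 h with h1 | h1
    · exact Or.inl h1
    · exact Or.inr h1
  refine le_antisymm ((nv K).map_add x y) (max_le (nv_mono ?_) (nv_mono ?_))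
  · rw [habs]; exact le_add_of_nonneg_right (abs_nonneg _)
  · rw [habs]; exact le_add_of_nonneg_left (abs_nonneg _)

theorem nv_int {n : ℤ} (hn : n ≠ 0) : nv K (n : K) = 1 := by
  apply le_antisymm
  · rw [ValuationSubring.valuation_le_one_iff, mem_natRing]
    refine ⟨n.natAbs, ?_⟩
    rw [← Int.cast_abs, ← Int.natCast_natAbs, Int.cast_natCast]
  · rw [← map_one (nv K)]
    apply nv_mono
    rw [abs_one, ← Int.cast_abs]
    have : (1 : ℤ) ≤ |n| := Int.one_le_abs hn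
    exact_mod_cast this

theorem nv_ne_zero {x : K} (hx : x ≠ 0) : nv K x ≠ 0 := (Valuation.ne_zero_iff _).2 hx

end nat

section chain

variable {R : Type u} [Field R] [LinearOrder R] [IsStrictOrderedRing R]
variable {J : Type u} [LinearOrder J] {s : J → R}

theorem chain_one (hs1 : ∀ j, ∀ n : ℕ, (n : R) < s j) (j : J) : 1 < nv R (s j) := by
  rw [← map_one (nv R), nv_lt_iff]
  intro n
  rw [abs_one, mul_one]
  exact (hs1 j n).trans_le (le_abs_self _)

theorem chain_lt (hs1 : ∀ j, ∀ n : ℕ, (n : R) < s j)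
    (hs2 : ∀ i j, i < j → ∀ n : ℕ, s i ^ n < s j) (i j : J) (h : i < j) (n : ℕ) :
    nv R (s i) ^ n < nv R (s j) := by
  rw [← map_pow, nv_lt_iff]
  intro k
  have h0 : 0 < s i := by simpa using hs1 i 0
  rw [abs_of_pos (pow_pos h0 n)]
  calc (k : R) * s i ^ n ≤ s i * s i ^ n :=
        mul_le_mul_of_nonneg_right (hs1 i k).le (pow_pos h0 n).le
    _ = s i ^ (n + 1) := (pow_succ' _ _).symm
    _ < s j := hs2 i j h _
    _ ≤ |s j| := le_abs_self _

/-- values lie in the group generated by the values of the `s j` -/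
def InG (s : J → R) (x : R) : Prop := ∃ n : J →₀ ℤ, nv R x = W (fun j => nv R (s j)) n

theorem InG_ring (hs1 : ∀ j, ∀ n : ℕ, (n : R) < s j)
    (hs2 : ∀ i j, i < j → ∀ n : ℕ, s i ^ n < s j) (y : R)
    (hy : y ∈ Subring.closure (Set.range s)) (hy0 : y ≠ 0) : InG s y := by
  classical
  have h1 := chain_one hs1
  have h2 := chain_lt hs1 hs2
  have hle : Subring.closure (Set.range s) ≤
      (MvPolynomial.eval₂Hom (Int.castRingHom R) s).range := by
    rw [Subring.closure_le]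
    rintro _ ⟨j, rfl⟩
    exact ⟨MvPolynomial.X j, by simp⟩
  obtain ⟨P, hP⟩ := hle hy
  rw [MvPolynomial.coe_eval₂Hom, MvPolynomial.eval₂_eq] at hP
  set t : (J →₀ ℕ) → R := fun d => (Int.castRingHom R) (P.coeff d) * ∏ i ∈ d.support, s i ^ d i
    with ht
  let z : (J →₀ ℕ) → (J →₀ ℤ) := fun d => d.mapRange (fun k : ℕ => (k : ℤ)) rfl
  have hz : Function.Injective z := Finsupp.mapRange_injective _ rfl Nat.cast_injective
  have hval : ∀ d ∈ P.support, nv R (t d) = W (fun j => nv R (s j)) (z d) := by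
    intro d hd
    rw [ht]
    simp only
    rw [map_mul, eq_intCast, nv_int (MvPolynomial.mem_support_iff.1 hd), one_mul, map_prod]
    unfold W
    rw [Finsupp.prod_mapRange_index (fun j => zpow_zero _)]
    unfold Finsupp.prod
    exact Finset.prod_congr rfl fun j _ => by rw [map_pow]; exact (zpow_natCast _ _).symm
  have hne : P.support.Nonempty := by
    rw [Finset.nonempty_iff_ne_empty]
    intro h
    rw [h, Finset.sum_empty] at hP
    exact hy0 hP.symm
  obtain ⟨d₀, hd₀, hmax⟩ := Finset.exists_max_image P.support (fun d => nv R (t d)) hne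
  refine ⟨z d₀, ?_⟩
  rw [← hval d₀ hd₀, ← hP, ← Finset.add_sum_erase _ _ hd₀]
  apply Valuation.map_add_eq_of_lt_left
  apply Valuation.map_sum_lt
  · rw [hval d₀ hd₀]; exact W_ne h1 _
  · intro d hd
    rw [Finset.mem_erase] at hd
    refine lt_of_le_of_ne (hmax d hd.2) ?_
    show nv R (t d) ≠ nv R (t d₀)
    rw [hval d hd.2, hval d₀ hd₀]
    intro h
    exact hd.1 (hz (W_injective h1 h2 h))

theorem InG_mul (hs1 : ∀ j, ∀ n : ℕ, (n : R) < s j) {x y : R} (hx : InG s x) (hy : InG s y) :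
    InG s (x * y) := by
  obtain ⟨n, hn⟩ := hx
  obtain ⟨m, hm⟩ := hy
  exact ⟨n + m, by rw [map_mul, hn, hm, W_add (chain_one hs1)]⟩

theorem InG_inv (hs1 : ∀ j, ∀ n : ℕ, (n : R) < s j) {x : R} (hx : InG s x) :
    InG s x⁻¹ := by
  obtain ⟨n, hn⟩ := hx
  exact ⟨-n, by rw [map_inv₀, hn, W_neg (chain_one hs1)]⟩

theorem InG_field (hs1 : ∀ j, ∀ n : ℕ, (n : R) < s j)
    (hs2 : ∀ i j, i < j → ∀ n : ℕ, s i ^ n < s j) (x : R)
    (hx : x ∈ Subfield.closure (Set.range s)) (hx0 : x ≠ 0) : InG s x := by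
  rw [Subfield.mem_closure_iff] at hx
  obtain ⟨y, hy, z, hz, rfl⟩ := hx
  have hy0 : y ≠ 0 := fun h => hx0 (by rw [h, zero_div])
  have hz0 : z ≠ 0 := fun h => hx0 (by rw [h, div_zero])
  rw [div_eq_mul_inv]
  exact InG_mul hs1 (InG_ring hs1 hs2 y hy hy0) (InG_inv hs1 (InG_ring hs1 hs2 z hz hz0))

/-- the quadratic extension `M(b)` -/
def quad (M : Subfield R) (b : R) (hb2 : b ^ 2 ∈ M) (hb : b ∉ M) : Subfield R where
  carrier := {x | ∃ p ∈ M, ∃ q ∈ M, x = p + q * b}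
  mul_mem' := by
    rintro _ _ ⟨p, hp, q, hq, rfl⟩ ⟨p', hp', q', hq', rfl⟩
    exact ⟨p * p' + q * q' * b ^ 2, M.add_mem (M.mul_mem hp hp') (M.mul_mem (M.mul_mem hq hq') hb2),
      p * q' + q * p', M.add_mem (M.mul_mem hp hq') (M.mul_mem hq hp'), by ring⟩
  one_mem' := ⟨1, M.one_mem, 0, M.zero_mem, by ring⟩
  add_mem' := by
    rintro _ _ ⟨p, hp, q, hq, rfl⟩ ⟨p', hp', q', hq', rfl⟩
    exact ⟨p + p', M.add_mem hp hp', q + q', M.add_mem hq hq', by ring⟩
  zero_mem' := ⟨0, M.zero_mem, 0, M.zero_mem, by ring⟩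
  neg_mem' := by
    rintro _ ⟨p, hp, q, hq, rfl⟩
    exact ⟨-p, M.neg_mem hp, -q, M.neg_mem hq, by ring⟩
  inv_mem' := by
    rintro _ ⟨p, hp, q, hq, rfl⟩
    by_cases hq0 : q = 0
    · exact ⟨p⁻¹, M.inv_mem hp, 0, M.zero_mem, by rw [hq0]; ring⟩
    have h1 : p + q * b ≠ 0 := by
      intro h
      apply hb
      have : b = -p / q := by field_simp; linear_combination h
      rw [this]
      exact M.div_mem (M.neg_mem hp) hq
    have h2 : p - q * b ≠ 0 := by
      intro h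
      apply hb
      have : b = p / q := by field_simp; linear_combination -h
      rw [this]
      exact M.div_mem hp hq
    have hD : p ^ 2 - q ^ 2 * b ^ 2 ∈ M :=
      M.sub_mem (M.pow_mem hp 2) (M.mul_mem (M.pow_mem hq 2) hb2)
    have hD' : p ^ 2 - q ^ 2 * b ^ 2 = (p + q * b) * (p - q * b) := by ring
    have hD0 : p ^ 2 - q ^ 2 * b ^ 2 ≠ 0 := by rw [hD']; exact mul_ne_zero h1 h2
    refine ⟨p / (p ^ 2 - q ^ 2 * b ^ 2), M.div_mem hp hD, -q / (p ^ 2 - q ^ 2 * b ^ 2),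
      M.div_mem (M.neg_mem hq) hD, ?_⟩
    apply inv_eq_of_mul_eq_one_right
    field_simp
    ring

theorem InG_quad (hs1 : ∀ j, ∀ n : ℕ, (n : R) < s j)
    (M : Subfield R) (b : R) (hb2 : b ^ 2 ∈ M) (hb : b ∉ M)
    (hM : ∀ x ∈ M, x ≠ 0 → InG s x) (hvb : nv R b = 1) (x : R) (hx : x ∈ quad M b hb2 hb)
    (hx0 : x ≠ 0) : InG s x := by
  obtain ⟨p, hp, q, hq, rfl⟩ := hx
  by_cases hq0 : q = 0
  · rw [hq0, zero_mul, add_zero] at hx0 ⊢
    exact hM p hp hx0
  have h2 : p - q * b ≠ 0 := by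
    intro h
    apply hb
    have : b = p / q := by field_simp; linear_combination -h
    rw [this]
    exact M.div_mem hp hq
  have hD : p ^ 2 - q ^ 2 * b ^ 2 ∈ M :=
    M.sub_mem (M.pow_mem hp 2) (M.mul_mem (M.pow_mem hq 2) hb2)
  have hD' : p ^ 2 - q ^ 2 * b ^ 2 = (p + q * b) * (p - q * b) := by ring
  have hD0 : p ^ 2 - q ^ 2 * b ^ 2 ≠ 0 := by rw [hD']; exact mul_ne_zero hx0 h2
  have hDG := hM _ hD hD0
  have hmax : ∀ y : R, nv R y = max (nv R p) (nv R (q * b)) → InG s y := by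
    intro y hy
    rcases max_choice (nv R p) (nv R (q * b)) with h | h
    · have hp0 : p ≠ 0 := by
        rintro rfl
        rw [map_zero, max_eq_right zero_le, Valuation.zero_iff] at h
        rcases mul_eq_zero.1 h with h | h
        · exact hq0 h
        · rw [h, map_zero] at hvb
          exact absurd hvb zero_ne_one
      obtain ⟨n, hn⟩ := hM p hp hp0
      exact ⟨n, by rw [hy, h, hn]⟩
    · obtain ⟨n, hn⟩ := hM q hq hq0
      exact ⟨n, by rw [hy, h, map_mul, hvb, mul_one, hn]⟩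
  rcases le_total 0 (p * (q * b)) with h | h
  · exact hmax _ (nv_add_same h)
  · have h3 : InG s (p - q * b) := by
      apply hmax
      rw [sub_eq_add_neg, nv_add_same (by linarith), Valuation.map_neg]
    have h4 : p + q * b = (p ^ 2 - q ^ 2 * b ^ 2) * (p - q * b)⁻¹ := by
      rw [hD', mul_assoc, mul_inv_cancel₀ h2, mul_one]
    rw [h4]
    exact InG_mul hs1 hDG (InG_inv hs1 h3)

theorem exists_L (hs1 : ∀ j, ∀ n : ℕ, (n : R) < s j)
    (hs2 : ∀ i j, i < j → ∀ n : ℕ, s i ^ n < s j) (R₁ : Subfield R)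
    (hR₁ : ∀ b : R, b ^ 2 ∈ R₁ → b ∈ R₁) (hsR : ∀ j, s j ∈ R₁) :
    ∃ L : Subfield R, L ≤ R₁ ∧ (∀ j, s j ∈ L) ∧ (∀ x ∈ L, x ≠ 0 → InG s x) ∧
      ∀ b : R, b ^ 2 ∈ L → nv R b = 1 → b ∈ L := by
  obtain ⟨L, hL1, hL2⟩ := zorn_le_nonempty₀
    {M : Subfield R | M ≤ R₁ ∧ ∀ x ∈ M, x ≠ 0 → InG s x} (by
      intro c hc hchain y hy
      refine ⟨sSup c, ⟨sSup_le fun z hz => (hc hz).1, ?_⟩, fun z hz => le_sSup hz⟩
      intro x hx hx0
      rw [Subfield.mem_sSup_of_directedOn ⟨y, hy⟩ hchain.directedOn] at hx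
      obtain ⟨M, hM, hxM⟩ := hx
      exact (hc hM).2 x hxM hx0) (Subfield.closure (Set.range s))
      ⟨by rw [Subfield.closure_le]; rintro _ ⟨j, rfl⟩; exact hsR j, InG_field hs1 hs2⟩
  refine ⟨L, hL2.prop.1, fun j => hL1 (Subfield.subset_closure ⟨j, rfl⟩), hL2.prop.2, ?_⟩
  intro b hb2 hvb
  by_contra hb
  have hle : L ≤ quad L b hb2 hb := fun x hx => ⟨x, hx, 0, L.zero_mem, by ring⟩
  have h1 := hL2.2 (y := quad L b hb2 hb) ⟨?_, InG_quad hs1 L b hb2 hb hL2.prop.2 hvb⟩ hle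
  · exact hb (h1 ⟨0, L.zero_mem, 1, L.one_mem, by ring⟩)
  · rintro _ ⟨p, hp, q, hq, rfl⟩
    exact R₁.add_mem (hL2.prop.1 hp) (R₁.mul_mem (hL2.prop.1 hq) (hR₁ b (hL2.prop.1 hb2)))

end chain

end Pool.Agent.V11251.DW
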