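import Pool.Agent.V11251.RC.Build

set_option autoImplicit false
set_option linter.unusedVariables false
set_option linter.unusedSectionVars false

universe u

namespace Pool.Agent.V11251.DW

open Polynomial Cardinal Pool.Agent.V11251.RC

/-- No non-constant rational functions `f`, `g` satisfy `g^2 = 1 + b f^4`. -/
theorem ratFunc_const' {F : Type u} [Field F] [CharZero F] (b₀ : F) (hb₀ : b₀ ≠ 0)
    (f g : RatFunc F) (h : g ^ 2 = 1 + RatFunc.C b₀ * f ^ 4) :
    (∃ c : F, f = RatFunc.C c) ∧ ∃ c : F, g = RatFunc.C c := by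
  classical
  by_cases hf : f = 0
  · refine ⟨⟨0, by rw [hf, map_zero]⟩, ?_⟩
    have h1 : (g - 1) * (g + 1) = 0 := by rw [hf] at h; linear_combination h
    rcases mul_eq_zero.1 h1 with h2 | h2
    · exact ⟨1, by rw [map_one]; linear_combination h2⟩
    · exact ⟨-1, by rw [map_neg, map_one]; linear_combination h2⟩
  by_cases hg : g = 0
  · refine ⟨?_, ⟨0, by rw [hg, map_zero]⟩⟩
    by_contra hcon
    have htr := RatFunc.transcendental_of_ne_C f hcon
    apply htr
    refine ⟨C b₀ * X ^ 4 + C 1, ?_, ?_⟩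
    · intro h0
      have := congrArg (fun p => p.coeff 4) h0
      simp [coeff_one] at this
      exact hb₀ this
    · rw [hg] at h
      simp only [map_add, map_mul, map_pow, aeval_X, aeval_C, map_one]
      rw [← RatFunc.algebraMap_eq_C] at h
      linear_combination -h
  set a := f.num with ha
  set b := f.denom with hb
  set c := g.num with hc
  set d := g.denom with hd
  have hab : IsCoprime a b := f.isCoprime_num_denom
  have hcd : IsCoprime c d := g.isCoprime_num_denom
  have ha0 : a ≠ 0 := RatFunc.num_ne_zero hf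
  have hc0 : c ≠ 0 := RatFunc.num_ne_zero hg
  have hb0 : b ≠ 0 := f.denom_ne_zero
  have hd0 : d ≠ 0 := g.denom_ne_zero
  have hA : algebraMap F[X] (RatFunc F) b ≠ 0 := by
    simpa using hb0
  have hD : algebraMap F[X] (RatFunc F) d ≠ 0 := by
    simpa using hd0
  have hfe : f = algebraMap F[X] (RatFunc F) a / algebraMap F[X] (RatFunc F) b :=
    (RatFunc.num_div_denom f).symm
  have hge : g = algebraMap F[X] (RatFunc F) c / algebraMap F[X] (RatFunc F) d :=
    (RatFunc.num_div_denom g).symm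
  have key : c ^ 2 * b ^ 4 = d ^ 2 * (b ^ 4 + C b₀ * a ^ 4) := by
    apply RatFunc.algebraMap_injective F
    rw [hfe, hge, ← RatFunc.algebraMap_C] at h
    field_simp at h
    simp only [map_mul, map_pow, map_add]
    linear_combination h
  have h1 : d ^ 2 ∣ b ^ 4 := by
    have : d ^ 2 ∣ c ^ 2 * b ^ 4 := ⟨_, key⟩
    exact (IsCoprime.pow hcd.symm).dvd_of_dvd_mul_left this
  have h2 : b ^ 4 ∣ d ^ 2 := by
    have hcop : IsCoprime (b ^ 4) (b ^ 4 + C b₀ * a ^ 4) := by
      have h0 : IsCoprime (b ^ 4) (a ^ 4) := IsCoprime.pow hab.symm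
      have hu : IsUnit (C b₀ : F[X]) := isUnit_C.2 (isUnit_iff_ne_zero.2 hb₀)
      have h0' : IsCoprime (b ^ 4) (C b₀ * a ^ 4) :=
        (isCoprime_mul_unit_left_right hu _ _).2 h0
      have h3 := IsCoprime.add_mul_left_right h0' 1
      rwa [mul_one, add_comm] at h3
    have : b ^ 4 ∣ d ^ 2 * (b ^ 4 + C b₀ * a ^ 4) := ⟨c ^ 2, by rw [← key]; ring⟩
    exact hcop.dvd_of_dvd_mul_right this
  obtain ⟨u, hu⟩ := (associated_of_dvd_dvd h2 h1)
  obtain ⟨r, hr, hru⟩ := Polynomial.isUnit_iff.1 u.isUnit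
  rw [← hru] at hu
  have key2 : c ^ 2 = C r * (b ^ 4 + C b₀ * a ^ 4) := by
    have hb4 : b ^ 4 ≠ 0 := pow_ne_zero _ hb0
    apply mul_right_cancel₀ hb4
    rw [key, ← hu]
    ring
  have h3 := Polynomial.flt_catalan (k := F) (p := 4) (q := 4) (r := 2) (by norm_num) (by norm_num)
    (by norm_num) (by norm_num) (by norm_num) (by norm_num) (by norm_num) ha0 hb0 hc0 hab
    (u := r * b₀) (v := r) (w := -1) (mul_ne_zero hr.ne_zero hb₀) hr.ne_zero (by norm_num)
    (by rw [key2]; simp only [map_neg, map_one, map_mul]; ring)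
  have ha' := Polynomial.eq_C_of_natDegree_eq_zero h3.1
  have hb' := Polynomial.eq_C_of_natDegree_eq_zero h3.2.1
  have hc' := Polynomial.eq_C_of_natDegree_eq_zero h3.2.2
  have hdd : d.natDegree = 0 := by
    have h4 := congrArg natDegree hu
    rw [hb', ← C_pow, ← C_mul, natDegree_C, natDegree_pow] at h4
    omega
  have hd' := Polynomial.eq_C_of_natDegree_eq_zero hdd
  constructor
  · refine ⟨a.coeff 0 / b.coeff 0, ?_⟩
    rw [hfe, ha', hb', RatFunc.algebraMap_C, RatFunc.algebraMap_C, map_div₀]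
    simp
  · refine ⟨c.coeff 0 / d.coeff 0, ?_⟩
    rw [hge, hc', hd', RatFunc.algebraMap_C, RatFunc.algebraMap_C, map_div₀]
    simp

theorem adjoin_const' {L : Type u} {R : Type u} [Field L] [Field R] [Algebra L R] [CharZero L]
    (z : R) (hz : Transcendental L z) (b : L) (hb : b ≠ 0) (f g : R)
    (hf : f ∈ IntermediateField.adjoin L {z})
    (hg : g ∈ IntermediateField.adjoin L {z}) (h : g ^ 2 = 1 + algebraMap L R b * f ^ 4) :
    (∃ c : L, f = algebraMap L R c) ∧ ∃ c : L, g = algebraMap L R c := by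
  let e := RatFunc.algEquivOfTranscendental z hz
  obtain ⟨⟨c, hc⟩, ⟨c', hc'⟩⟩ := ratFunc_const' b hb (e.symm ⟨f, hf⟩) (e.symm ⟨g, hg⟩) (by
    have h1 : RatFunc.C b = e.symm (algebraMap L _ b) := by
      rw [AlgEquiv.commutes, RatFunc.algebraMap_eq_C]
    rw [h1, ← map_pow, ← map_pow, ← map_one e.symm, ← map_mul, ← map_add]
    congr 1
    exact Subtype.ext h)
  refine ⟨⟨c, ?_⟩, ⟨c', ?_⟩⟩
  · have h1 := congrArg e hc
    rw [AlgEquiv.apply_symm_apply, ← RatFunc.algebraMap_eq_C, AlgEquiv.commutes] at h1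
    exact congrArg Subtype.val h1
  · have h1 := congrArg e hc'
    rw [AlgEquiv.apply_symm_apply, ← RatFunc.algebraMap_eq_C, AlgEquiv.commutes] at h1
    exact congrArg Subtype.val h1

section

variable {R : Type u} [Field R] (L : Subfield R)

/-- all points of `y² = 1 + b x⁴` (`b ∈ L`, `b ≠ 0`) over `M` are points over `L` -/
def P2 (M : Subfield R) : Prop :=
  ∀ b ∈ L, b ≠ 0 → ∀ f ∈ M, ∀ g ∈ M, g ^ 2 = 1 + b * f ^ 4 → f ∈ L ∧ g ∈ L

variable {L}

theorem P2.mono {M N : Subfield R} (h : M ≤ N) (hN : P2 L N) : P2 L M :=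
  fun b hb hb0 f hf g hg hfg => hN b hb hb0 f (h hf) g (h hg) hfg

theorem P2.step [CharZero R] {M : Subfield R} (hLM : L ≤ M) (hM : P2 L M) (z : R)
    (hz : Transcendental M z) : P2 L (Subfield.closure (insert z (M : Set R))) := by
  have hle : Subfield.closure (insert z (M : Set R)) ≤
      (IntermediateField.adjoin M {z}).toSubfield := by
    rw [Subfield.closure_le]
    rintro x (rfl | hx)
    · exact IntermediateField.mem_adjoin_simple_self M _
    · exact (IntermediateField.adjoin M {z}).algebraMap_mem (⟨x, hx⟩ : M)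
  intro b hb hb0 f hf g hg hfg
  haveI : CharZero M := charZero_of_injective_algebraMap (R := ℚ) (A := M)
    (algebraMap ℚ M).injective
  obtain ⟨⟨c, hc⟩, ⟨c', hc'⟩⟩ := adjoin_const' z hz (⟨b, hLM hb⟩ : M)
    (fun h => hb0 (congrArg Subtype.val h)) f g (hle hf) (hle hg) hfg
  exact hM b hb hb0 f (by rw [hc]; exact c.2) g (by rw [hc']; exact c'.2) hfg

theorem exists_maximal' (K₀ : Subfield R) (h0 : P2 L K₀) :
    ∃ K, K₀ ≤ K ∧ Maximal (fun M => K₀ ≤ M ∧ P2 L M) K := by
  obtain ⟨K, hK1, hK2⟩ := zorn_le_nonempty₀ {M : Subfield R | K₀ ≤ M ∧ P2 L M} (by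
    intro c hc hchain y hy
    refine ⟨sSup c, ⟨(hc hy).1.trans (le_sSup hy), ?_⟩, fun z hz => le_sSup hz⟩
    intro b hb hb0 f hf g hg hfg
    rw [Subfield.mem_sSup_of_directedOn ⟨y, hy⟩ hchain.directedOn] at hf hg
    obtain ⟨M, hM, hfM⟩ := hf
    obtain ⟨N, hN, hgN⟩ := hg
    rcases hchain.total hM hN with h | h
    · exact (hc hN).2 b hb hb0 f (h hfM) g hgN hfg
    · exact (hc hM).2 b hb hb0 f hfM g (h hgN) hfg) K₀ ⟨le_rfl, h0⟩
  exact ⟨K, hK1, hK2⟩

theorem algebraic_of_maximal' [CharZero R] {K₀ K : Subfield R} (hL : L ≤ K₀)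
    (hK : Maximal (fun M => K₀ ≤ M ∧ P2 L M) K) : Algebra.IsAlgebraic K R := by
  refine ⟨fun z => ?_⟩
  by_contra hz
  have hle : K ≤ Subfield.closure (insert z (K : Set R)) := fun x hx =>
    Subfield.subset_closure (Set.mem_insert_of_mem _ hx)
  have h1 := hK.2 ⟨hK.prop.1.trans hle, hK.prop.2.step (hL.trans hK.prop.1) z hz⟩ hle
  have hzK : z ∈ K := h1 (Subfield.subset_closure (Set.mem_insert _ _))
  exact hz (isAlgebraic_algebraMap (⟨z, hzK⟩ : K))

end

section order

variable {R : Type u} [Field R] [LinearOrder R] [IsStrictOrderedRing R] (L : Subfield R)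

theorem exists_dense' (hR : ℵ₀ < Cardinal.mk R) (hL : Cardinal.mk L < Cardinal.mk R) :
    ∃ K₀ : Subfield R, L ≤ K₀ ∧ P2 L K₀ ∧ ∀ a b : R, a < b → ∃ x ∈ K₀, a < x ∧ x < b := by
  classical
  let P := {p : R × R // p.1 < p.2}
  have hP : Cardinal.mk P ≤ Cardinal.mk R := by
    refine (Cardinal.mk_subtype_le _).trans ?_
    rw [Cardinal.mk_prod, Cardinal.lift_id, Cardinal.mul_eq_self hR.le]
  let ι := (Cardinal.mk P).ord.ToType
  have hι : Cardinal.mk ι = Cardinal.mk P := Cardinal.mk_ord_toType _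
  obtain ⟨e⟩ := Cardinal.eq.1 hι
  have hex : ∀ (i : ι) (s : {q : ι // q < i} → R), ∃ x, (e i).1.1 < x ∧ x < (e i).1.2 ∧
      Transcendental (Subfield.closure ((L : Set R) ∪ Set.range s)) x := by
    intro i s
    by_contra hcon
    push Not at hcon
    set M := Subfield.closure ((L : Set R) ∪ Set.range s) with hM
    have h1 : Cardinal.mk R ≤ Cardinal.mk {x : R // IsAlgebraic M x} := by
      refine (card_Ioo _ _ (e i).2).trans ?_
      refine Cardinal.mk_le_of_injective (f := fun x : Set.Ioo (e i).1.1 (e i).1.2 =>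
        (⟨x.1, ?_⟩ : {x : R // IsAlgebraic M x})) ?_
      · have := hcon x.1 x.2.1 x.2.2
        unfold Transcendental at this
        push Not at this
        exact this
      · intro x y hxy
        exact Subtype.ext (congrArg (fun z => z.1) hxy)
    have h2 : Cardinal.mk {x : R // IsAlgebraic M x} ≤ max (Cardinal.mk M) ℵ₀ :=
      Algebraic.cardinalMk_le_max M R
    have h3 : Cardinal.mk M ≤ max (Cardinal.mk ((L : Set R) ∪ Set.range s : Set R)) ℵ₀ :=
      Subfield.cardinalMk_closure_le_max _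
    have h4 : Cardinal.mk ((L : Set R) ∪ Set.range s : Set R) < Cardinal.mk R := by
      refine (Cardinal.mk_union_le _ _).trans_lt (Cardinal.add_lt_of_lt hR.le hL ?_)
      refine (Cardinal.mk_range_le).trans_lt ?_
      have : Cardinal.mk {q : ι // q < i} < Cardinal.mk P := Cardinal.mk_Iio_ord_toType i
      exact this.trans_le hP
    exact absurd (h1.trans (h2.trans (max_le h3 (le_max_right _ _)))) (not_le.2 (max_lt h4 hR))
  obtain ⟨t, ht⟩ := exists_rec (R := R) (fun q p : ι => q < p) wellFounded_lt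
    (fun i s x => (e i).1.1 < x ∧ x < (e i).1.2 ∧
      Transcendental (Subfield.closure ((L : Set R) ∪ Set.range s)) x) hex
  have hfin : ∀ s : Finset ι, P2 L (Subfield.closure ((L : Set R) ∪ t '' (s : Set ι))) := by
    intro s
    induction s using Finset.induction_on_max with
    | empty =>
      simp only [Finset.coe_empty, Set.image_empty, Set.union_empty, Subfield.closure_eq]
      exact fun b hb hb0 f hf g hg _ => ⟨hf, hg⟩
    | insert m s hm ih =>
      have htr : Transcendental (Subfield.closure ((L : Set R) ∪ t '' (s : Set ι))) (t m) := by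
        refine transcendental_mono (Subfield.closure_mono (Set.union_subset_union_right _ ?_))
          (ht m).2.2
        rintro _ ⟨j, hj, rfl⟩
        exact ⟨⟨j, hm j hj⟩, rfl⟩
      refine P2.mono ?_ (ih.step (fun x hx => Subfield.subset_closure (Or.inl hx)) (t m) htr)
      rw [Subfield.closure_le]
      rintro x (hx | ⟨j, hj, rfl⟩)
      · exact Subfield.subset_closure (Or.inr (Subfield.subset_closure (Or.inl hx)))
      · rw [Finset.coe_insert] at hj
        rcases hj with rfl | hj
        · exact Subfield.subset_closure (Or.inl rfl)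
        · exact Subfield.subset_closure (Or.inr (Subfield.subset_closure (Or.inr ⟨j, hj, rfl⟩)))
  refine ⟨Subfield.closure ((L : Set R) ∪ Set.range t), ?_, ?_, ?_⟩
  · intro x hx
    exact Subfield.subset_closure (Or.inl hx)
  · intro b hb hb0 f hf g hg hfg
    obtain ⟨s, hs⟩ := mem_closure_finite t f hf
    obtain ⟨s', hs'⟩ := mem_closure_finite t g hg
    have hmono : ∀ s s' : Finset ι, s ⊆ s' →
        Subfield.closure ((L : Set R) ∪ t '' (s : Set ι)) ≤
        Subfield.closure ((L : Set R) ∪ t '' (s' : Set ι)) := fun s s' h =>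
      Subfield.closure_mono (Set.union_subset_union_right _
        (Set.image_mono (Finset.coe_subset.2 h)))
    exact hfin (s ∪ s') b hb hb0 f (hmono _ _ Finset.subset_union_left hs) g
      (hmono _ _ Finset.subset_union_right hs') hfg
  · intro a b hab
    have h1 := ht (e.symm ⟨(a, b), hab⟩)
    rw [Equiv.apply_symm_apply] at h1
    exact ⟨_, Subfield.subset_closure (Or.inr ⟨_, rfl⟩), h1.1, h1.2.1⟩

end order

end Pool.Agent.V11251.DW
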