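import Pool.Agent.V11251.DW.MS2

set_option autoImplicit false
set_option linter.unusedVariables false
set_option linter.unusedSectionVars false

universe u

namespace Pool.Agent.V11251.DW

section group

variable {J : Type u} [LinearOrder J] {V : Type u} [LinearOrderedCommGroupWithZero V] (w : J → V)

/-- `g` is small with respect to `w m` -/
def Sm (m : J) (g : V) : Prop := g ≠ 0 ∧ (∀ n : ℕ, g ^ n < w m) ∧ ∀ n : ℕ, (g⁻¹) ^ n < w m

variable {w}

theorem Sm.mul {m : J} {g h : V} (hg : Sm w m g) (hh : Sm w m h) : Sm w m (g * h) := by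
  have key : ∀ a b : V, (∀ n : ℕ, a ^ n < w m) → (∀ n : ℕ, b ^ n < w m) →
      ∀ n : ℕ, (a * b) ^ n < w m := by
    intro a b ha hb n
    rcases le_total a b with h1 | h1
    · have : (a * b) ^ n ≤ b ^ (2 * n) := by
        rw [pow_mul, pow_two]
        exact pow_le_pow_left₀ zero_le (mul_le_mul_left h1 b) n
      exact this.trans_lt (hb _)
    · have : (a * b) ^ n ≤ a ^ (2 * n) := by
        rw [pow_mul, pow_two]
        exact pow_le_pow_left₀ zero_le (mul_le_mul_right h1 a) n
      exact this.trans_lt (ha _)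
  refine ⟨mul_ne_zero hg.1 hh.1, key _ _ hg.2.1 hh.2.1, ?_⟩
  rw [mul_inv]
  exact key _ _ hg.2.2 hh.2.2

theorem Sm.inv {m : J} {g : V} (hg : Sm w m g) : Sm w m g⁻¹ :=
  ⟨inv_ne_zero hg.1, hg.2.2, by rw [inv_inv]; exact hg.2.1⟩

theorem Sm.one {m : J} (h : 1 < w m) : Sm w m 1 :=
  ⟨one_ne_zero, fun n => by rw [one_pow]; exact h, fun n => by rw [inv_one, one_pow]; exact h⟩

theorem Sm.pow {m : J} {g : V} (h : 1 < w m) (hg : Sm w m g) (n : ℕ) : Sm w m (g ^ n) := by
  induction n with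
  | zero => rw [pow_zero]; exact Sm.one h
  | succ n ih => rw [pow_succ]; exact ih.mul hg

theorem Sm.zpow {m : J} {g : V} (h : 1 < w m) (hg : Sm w m g) (n : ℤ) : Sm w m (g ^ n) := by
  cases n with
  | ofNat n => rw [Int.ofNat_eq_natCast, zpow_natCast]; exact hg.pow h n
  | negSucc n => rw [zpow_negSucc]; exact (hg.pow h _).inv

variable (w)

/-- the monomial with exponents `n` -/
noncomputable def W (n : J →₀ ℤ) : V := n.prod fun j k => w j ^ k

variable {w} (h1 : ∀ j, 1 < w j) (h2 : ∀ i j, i < j → ∀ n : ℕ, w i ^ n < w j)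

include h1

theorem w_ne (j : J) : w j ≠ 0 := fun h => by
  have := h1 j
  rw [h] at this
  exact absurd this (not_lt.2 zero_le)

theorem W_add (n m : J →₀ ℤ) : W w (n + m) = W w n * W w m := by
  classical
  unfold W
  refine Finsupp.prod_add_index' (fun j => zpow_zero _) (fun j a b => ?_)
  rw [zpow_add₀ (w_ne h1 j)]

theorem W_zero : W w 0 = 1 := Finsupp.prod_zero_index

theorem W_single (j : J) (k : ℤ) : W w (Finsupp.single j k) = w j ^ k :=
  Finsupp.prod_single_index (zpow_zero _)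

theorem W_ne (n : J →₀ ℤ) : W w n ≠ 0 := by
  unfold W Finsupp.prod
  rw [Finset.prod_ne_zero_iff]
  exact fun j _ => zpow_ne_zero _ (w_ne h1 j)

theorem W_neg (n : J →₀ ℤ) : W w (-n) = (W w n)⁻¹ := by
  have := W_add h1 (-n) n
  rw [neg_add_cancel, W_zero h1] at this
  exact eq_inv_of_mul_eq_one_left this.symm

theorem W_nsmul (k : ℕ) (n : J →₀ ℤ) : W w (k • n) = W w n ^ k := by
  induction k with
  | zero => rw [zero_smul, W_zero h1, pow_zero]
  | succ k ih => rw [succ_nsmul, W_add h1, ih, pow_succ]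

include h2

theorem Sm_of_lt {i m : J} (h : i < m) : Sm w m (w i) := by
  refine ⟨w_ne h1 i, h2 i m h, fun n => ?_⟩
  have : (w i)⁻¹ ^ n ≤ 1 := pow_le_one₀ zero_le (inv_le_one_of_one_le₀ (h1 i).le)
  exact this.trans_lt (h1 m)

theorem Sm_W (m : J) (n : J →₀ ℤ) (hn : ∀ j ∈ n.support, j < m) : Sm w m (W w n) := by
  unfold W Finsupp.prod
  have : ∀ s : Finset J, (∀ j ∈ s, j < m) → Sm w m (∏ j ∈ s, w j ^ n j) := by
    classical
    intro s
    induction s using Finset.induction_on with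
    | empty => intro _; rw [Finset.prod_empty]; exact Sm.one (h1 m)
    | insert a s ha ih =>
      intro h
      rw [Finset.prod_insert ha]
      exact ((Sm_of_lt h1 h2 (h a (Finset.mem_insert_self _ _))).zpow (h1 m) _).mul
        (ih fun j hj => h j (Finset.mem_insert_of_mem hj))
  exact this _ hn

theorem W_top (n : J →₀ ℤ) (hn : n ≠ 0) :
    ∃ a, n a ≠ 0 ∧ (∀ j ∈ n.support, j ≤ a) ∧ ∃ h, Sm w a h ∧ W w n = w a ^ n a * h := by
  classical
  have hne : n.support.Nonempty := Finsupp.support_nonempty_iff.2 hn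
  refine ⟨n.support.max' hne, ?_, fun j hj => Finset.le_max' _ _ hj,
    W w (n.erase (n.support.max' hne)), ?_, ?_⟩
  · exact Finsupp.mem_support_iff.1 (Finset.max'_mem _ _)
  · refine Sm_W h1 h2 _ _ ?_
    intro j hj
    rw [Finsupp.support_erase, Finset.mem_erase] at hj
    exact lt_of_le_of_ne (Finset.le_max' _ _ hj.2) hj.1
  · rw [← W_single h1, ← W_add h1, Finsupp.single_add_erase]

theorem top_pos {a : J} {k : ℤ} {h : V} (hh : Sm w a h) (hk : 0 < k) : 1 < w a ^ k * h := by
  have h3 := hh.2.2 1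
  rw [pow_one] at h3
  have hwa : w a ≤ w a ^ k := by
    calc w a = w a ^ (1 : ℤ) := (zpow_one _).symm
      _ ≤ w a ^ k := zpow_le_zpow_right₀ (h1 a).le (by omega)
  have h4 : h⁻¹ < w a ^ k := h3.trans_le hwa
  calc (1 : V) = h⁻¹ * h := (inv_mul_cancel₀ hh.1).symm
    _ < w a ^ k * h := mul_lt_mul_of_pos_right h4 (zero_lt_iff.2 hh.1)

theorem top_neg {a : J} {k : ℤ} {h : V} (hh : Sm w a h) (hk : k < 0) : w a ^ k * h < 1 := by
  have h3 := top_pos h1 h2 hh.inv (k := -k) (by omega)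
  rw [zpow_neg, ← mul_inv] at h3
  have hne : w a ^ k * h ≠ 0 := mul_ne_zero (zpow_ne_zero _ (w_ne h1 a)) hh.1
  rw [one_lt_inv₀ (zero_lt_iff.2 hne)] at h3
  exact h3

theorem W_eq_one (n : J →₀ ℤ) (h : W w n = 1) : n = 0 := by
  by_contra hn
  obtain ⟨a, ha, _, g, hg, hW⟩ := W_top h1 h2 n hn
  rw [h] at hW
  rcases lt_or_gt_of_ne ha with h3 | h3
  · exact absurd hW.symm (top_neg h1 h2 hg h3).ne
  · exact absurd hW (top_pos h1 h2 hg h3).ne

theorem W_injective : Function.Injective (W w) := by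
  intro n m h
  have : W w (n + -m) = 1 := by
    rw [W_add h1, W_neg h1, h, mul_inv_cancel₀ (W_ne h1 m)]
  have h3 := W_eq_one h1 h2 _ this
  exact eq_of_sub_eq_zero (by rw [sub_eq_add_neg]; exact h3)

theorem F1 (n : J →₀ ℤ) (i : J) : W w n ^ 2 ≠ w i := by
  intro h
  have h3 : W w (2 • n) = W w (Finsupp.single i 1) := by
    rw [W_nsmul h1, h, W_single h1, zpow_one]
  have h4 := W_injective h1 h2 h3
  have h5 := DFunLike.congr_fun h4 i
  rw [Finsupp.smul_apply, Finsupp.single_eq_same] at h5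
  rw [nsmul_eq_mul] at h5
  push_cast at h5
  omega

theorem F2 (m : J →₀ ℤ) (i : J) (h : W w m ^ 4 ≤ w i) (n : ℕ) : W w m ^ n ≤ w i := by
  by_cases hm : m = 0
  · rw [hm, W_zero h1, one_pow]
    exact (h1 i).le
  obtain ⟨a, ha, hmax, g, hg, hW⟩ := W_top h1 h2 m hm
  rcases lt_or_ge a i with hai | hai
  · exact ((Sm_W h1 h2 i m fun j hj => (hmax j hj).trans_lt hai).2.1 n).le
  rcases lt_or_gt_of_ne ha with h3 | h3
  · have h4 := top_neg h1 h2 hg h3
    rw [← hW] at h4
    exact (pow_le_one₀ zero_le h4.le).trans (h1 i).le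
  · exfalso
    have hwai : w i ≤ w a := by
      rcases hai.eq_or_lt with rfl | hlt
      · exact le_rfl
      · have := h2 i a hlt 1
        rw [pow_one] at this
        exact this.le
    have h4 : w a < W w m ^ 4 := by
      have h5 := top_pos h1 h2 (k := 4 * m a - 1) (hg.pow (h1 a) 4) (by omega)
      have h6 : W w m ^ 4 = w a * (w a ^ (4 * m a - 1) * g ^ 4) := by
        rw [hW, mul_pow, ← mul_assoc]
        congr 1
        rw [← zpow_one_add₀ (w_ne h1 a), ← zpow_natCast, ← zpow_mul]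
        congr 1
        push_cast
        ring
      rw [h6]
      calc w a = w a * 1 := (mul_one _).symm
        _ < w a * (w a ^ (4 * m a - 1) * g ^ 4) :=
            mul_lt_mul_of_pos_left h5 (zero_lt_iff.2 (w_ne h1 a))
    exact absurd (h4.trans_le h) (not_lt.2 hwai)

end group

end Pool.Agent.V11251.DW
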